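import Pool.Agent.Y766.R3.Stm

/-!
# KLO: stationary phase for complete sums modulo prime powers
-/

set_option autoImplicit false

namespace Pool.Agent.Y779.R3

open Finset Polynomial Pool.Agent.Y766.R3

section ring

variable {p r : ℕ}

theorem pi_zero {n : ℕ} (h : r ≤ n) : (p : ZMod (p ^ r)) ^ n = 0 := by
  have : ((p ^ n : ℕ) : ZMod (p ^ r)) = 0 := (ZMod.natCast_eq_zero_iff _ _).2 (pow_dvd_pow p h)
  rwa [Nat.cast_pow] at this

theorem pi_ne (hp : p.Prime) {n : ℕ} (h : n < r) : (p : ZMod (p ^ r)) ^ n ≠ 0 := by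
  intro h0
  rw [← Nat.cast_pow, ZMod.natCast_eq_zero_iff] at h0
  have := (Nat.pow_dvd_pow_iff_le_right hp.one_lt).1 h0
  omega

theorem nontriv (hp : p.Prime) (hr : 1 ≤ r) : Nontrivial (ZMod (p ^ r)) := by
  have : Fact (1 < p ^ r) := ⟨Nat.one_lt_pow (by omega) hp.one_lt⟩
  infer_instance

theorem unit_or [NeZero (p ^ r)] (hp : p.Prime) (x : ZMod (p ^ r)) :
    IsUnit x ∨ ∃ x' : ZMod (p ^ r), x = p * x' := by
  by_cases h : p ∣ x.val
  · right
    obtain ⟨m, hm⟩ := h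
    refine ⟨m, ?_⟩
    rw [← Nat.cast_mul, ← hm, ZMod.natCast_zmod_val]
  · left
    rw [← ZMod.natCast_zmod_val x, ZMod.isUnit_iff_coprime]
    exact Nat.Coprime.pow_right _ ((Nat.Prime.coprime_iff_not_dvd hp).2 h).symm

theorem nilp (x : ZMod (p ^ r)) : IsNilpotent ((p : ZMod (p ^ r)) * x) :=
  ⟨r, by rw [mul_pow, pi_zero le_rfl, zero_mul]⟩

theorem not_unit_pi (hp : p.Prime) (hr : 1 ≤ r) (x : ZMod (p ^ r)) :
    ¬ IsUnit ((p : ZMod (p ^ r)) * x) := by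
  have := nontriv hp hr
  intro h
  obtain ⟨n, hn⟩ := nilp x
  have := h.pow n
  rw [hn] at this
  exact not_isUnit_zero this

theorem unit_add [NeZero (p ^ r)] (hp : p.Prime) (hr : 1 ≤ r) {a b : ZMod (p ^ r)}
    (h : IsUnit (a + b)) : IsUnit a ∨ IsUnit b := by
  rcases unit_or hp a with ha | ⟨a', rfl⟩
  · exact Or.inl ha
  rcases unit_or hp b with hb | ⟨b', rfl⟩
  · exact Or.inr hb
  rw [← mul_add] at h
  exact absurd h (not_unit_pi hp hr _)

theorem unit_int (hp : p.Prime) {h : ℤ} (hh : ¬ (p : ℤ) ∣ h) :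
    IsUnit (h : ZMod (p ^ r)) := by
  rw [ZMod.coe_int_isUnit_iff_isCoprime]
  push_cast
  exact IsCoprime.pow_left ((Nat.prime_iff_prime_int.1 hp).coprime_iff_not_dvd.2 hh)

theorem unit_two (hp : p.Prime) (hp2 : p ≠ 2) : IsUnit (2 : ZMod (p ^ r)) := by
  have h : ¬ (p : ℤ) ∣ 2 := by
    intro h
    have h' : p ∣ 2 := by exact_mod_cast h
    exact hp2 ((Nat.prime_dvd_prime_iff_eq hp Nat.prime_two).1 h')
  have := unit_int (r := r) hp h
  simpa using this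

/-- an element killed by `p^s`, `s < r`, is not a unit -/
theorem not_unit_ann (hp : p.Prime) {s : ℕ} (hs : s < r) {x : ZMod (p ^ r)}
    (h : (p : ZMod (p ^ r)) ^ s * x = 0) : ¬ IsUnit x := by
  intro hx
  exact pi_ne hp hs ((hx.mul_left_eq_zero).1 h)

/-- an element of the form `1 + p^E x`, `1 ≤ E`, is a unit -/
theorem unit_one_add {E : ℕ} (hE : 1 ≤ E) (x : ZMod (p ^ r)) :
    IsUnit (1 + (p : ZMod (p ^ r)) ^ E * x) := by
  have h : (p : ZMod (p ^ r)) ^ E * x = p * (p ^ (E - 1) * x) := by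
    rw [← mul_assoc, ← pow_succ']
    congr 3
    omega
  rw [h]
  exact (nilp _).isUnit_one_add

theorem card_ann [NeZero (p ^ r)] (hp : p.Prime) {s : ℕ} (hs : s ≤ r) (c : ZMod (p ^ r)) :
    (univ.filter fun x : ZMod (p ^ r) => (p : ZMod (p ^ r)) ^ s * (x - c) = 0).card ≤ p ^ s := by
  classical
  rw [← Finset.card_range (p ^ s)]
  have key : ∀ x : ZMod (p ^ r), (p : ZMod (p ^ r)) ^ s * (x - c) = 0 →
      p ^ (r - s) ∣ (x - c).val := by
    intro x hx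
    rw [← ZMod.natCast_zmod_val (x - c), ← Nat.cast_pow, ← Nat.cast_mul,
      ZMod.natCast_eq_zero_iff] at hx
    have e : p ^ s * p ^ (r - s) = p ^ r := by rw [← pow_add]; congr 1; omega
    exact Nat.dvd_of_mul_dvd_mul_left (pow_pos hp.pos s) ((dvd_of_eq e).trans hx)
  refine Finset.card_le_card_of_injOn (fun x => (x - c).val / p ^ (r - s)) ?_ ?_
  · intro x hx
    simp only [coe_filter, mem_univ, true_and, Set.mem_ofPred_eq] at hx
    simp only [coe_range, Set.mem_Iio]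
    rw [Nat.div_lt_iff_lt_mul (pow_pos hp.pos _), ← pow_add]
    have e : s + (r - s) = r := by omega
    rw [e]
    exact ZMod.val_lt _
  · intro x hx x' hx' h
    simp only [coe_filter, mem_univ, true_and, Set.mem_ofPred_eq] at hx hx' h
    have h1 := Nat.div_mul_cancel (key x hx)
    have h2 := Nat.div_mul_cancel (key x' hx')
    rw [h] at h1
    have h3 : (x - c).val = (x' - c).val := h1.symm.trans h2
    exact sub_left_injective (ZMod.val_injective _ h3)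

/-- the unit `1 + p^s z` -/
def oneU (s : ℕ) (hs : r ≤ 2 * s) (z : ZMod (p ^ r)) : (ZMod (p ^ r))ˣ where
  val := 1 + (p : ZMod (p ^ r)) ^ s * z
  inv := 1 - (p : ZMod (p ^ r)) ^ s * z
  val_inv := by
    have h : (p : ZMod (p ^ r)) ^ (2 * s) = 0 := pi_zero hs
    have h2 : (p : ZMod (p ^ r)) ^ s * (p : ZMod (p ^ r)) ^ s = 0 := by
      rw [← pow_add, ← two_mul, h]
    linear_combination (-z ^ 2) * h2
  inv_val := by
    have h : (p : ZMod (p ^ r)) ^ (2 * s) = 0 := pi_zero hs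
    have h2 : (p : ZMod (p ^ r)) ^ s * (p : ZMod (p ^ r)) ^ s = 0 := by
      rw [← pow_add, ← two_mul, h]
    linear_combination (-z ^ 2) * h2

theorem oneU_val (s : ℕ) (hs : r ≤ 2 * s) (z : ZMod (p ^ r)) :
    ((oneU s hs z : (ZMod (p ^ r))ˣ) : ZMod (p ^ r)) = 1 + (p : ZMod (p ^ r)) ^ s * z := rfl

theorem oneU_inv (s : ℕ) (hs : r ≤ 2 * s) (z : ZMod (p ^ r)) :
    (((oneU s hs z)⁻¹ : (ZMod (p ^ r))ˣ) : ZMod (p ^ r)) = 1 - (p : ZMod (p ^ r)) ^ s * z := rfl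

theorem psi_mul {u E : ℕ} (hu : u ≤ E) {Ψ : ZMod (p ^ r) → ℂ}
    (hΨ : ∀ y z : ZMod (p ^ r), Ψ (y + (p : ZMod (p ^ r)) ^ u * z) = Ψ y)
    (y z : ZMod (p ^ r)) : Ψ (y * (1 + (p : ZMod (p ^ r)) ^ E * z)) = Ψ y := by
  have e : (p : ZMod (p ^ r)) ^ E = p ^ u * p ^ (E - u) := by rw [← pow_add]; congr 1; omega
  have : y * (1 + (p : ZMod (p ^ r)) ^ E * z) =
      y + (p : ZMod (p ^ r)) ^ u * ((p : ZMod (p ^ r)) ^ (E - u) * z * y) := by
    rw [e]; ring
  rw [this, hΨ]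

/-- the localised set -/
noncomputable def YY [NeZero (p ^ r)] (s : ℕ) (A B : ZMod (p ^ r)) : Finset (ZMod (p ^ r))ˣ := by
  classical
  exact univ.filter fun y => (p : ZMod (p ^ r)) ^ s *
    (A * (y : ZMod (p ^ r)) - B * ((y⁻¹ : (ZMod (p ^ r))ˣ) : ZMod (p ^ r))) = 0

theorem mem_YY [NeZero (p ^ r)] {s : ℕ} {A B : ZMod (p ^ r)} {y : (ZMod (p ^ r))ˣ} :
    y ∈ YY s A B ↔ (p : ZMod (p ^ r)) ^ s *
      (A * (y : ZMod (p ^ r)) - B * ((y⁻¹ : (ZMod (p ^ r))ˣ) : ZMod (p ^ r))) = 0 := by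
  classical
  simp [YY]

theorem loc [NeZero (p ^ r)] {s u : ℕ} (hs : r ≤ 2 * s) (hu : u ≤ s) (Ψ : ZMod (p ^ r) → ℂ)
    (hΨ : ∀ y z : ZMod (p ^ r), Ψ (y + (p : ZMod (p ^ r)) ^ u * z) = Ψ y) (A B : ZMod (p ^ r)) :
    KL Ψ A B = ∑ y ∈ YY s A B, Ψ y * ZMod.stdAddChar (A * (y : ZMod (p ^ r)) +
      B * ((y⁻¹ : (ZMod (p ^ r))ˣ) : ZMod (p ^ r))) := by
  classical
  have h1 : ∀ z : ZMod (p ^ r), KL Ψ A B = ∑ y : (ZMod (p ^ r))ˣ,
      Ψ y * ZMod.stdAddChar (A * (y : ZMod (p ^ r)) +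
        B * ((y⁻¹ : (ZMod (p ^ r))ˣ) : ZMod (p ^ r))) *
      ZMod.stdAddChar (z * ((p : ZMod (p ^ r)) ^ s *
        (A * (y : ZMod (p ^ r)) - B * ((y⁻¹ : (ZMod (p ^ r))ˣ) : ZMod (p ^ r))))) := by
    intro z
    unfold KL
    rw [← Equiv.sum_comp (Equiv.mulRight (oneU s hs z))]
    refine Finset.sum_congr rfl fun y _ => ?_
    rw [Equiv.coe_mulRight, mul_inv_rev, Units.val_mul, Units.val_mul, oneU_val, oneU_inv,
      psi_mul hu hΨ, mul_assoc, ← AddChar.map_add_eq_mul]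
    congr 2
    ring
  have hne : ((p ^ r : ℕ) : ℂ) ≠ 0 := by exact_mod_cast NeZero.ne (p ^ r)
  refine mul_left_cancel₀ hne ?_
  calc ((p ^ r : ℕ) : ℂ) * KL Ψ A B = ∑ z : ZMod (p ^ r), KL Ψ A B := by
        rw [Finset.sum_const, Finset.card_univ, ZMod.card, nsmul_eq_mul]
    _ = ∑ z : ZMod (p ^ r), ∑ y : (ZMod (p ^ r))ˣ,
      Ψ y * ZMod.stdAddChar (A * (y : ZMod (p ^ r)) +
        B * ((y⁻¹ : (ZMod (p ^ r))ˣ) : ZMod (p ^ r))) *
      ZMod.stdAddChar (z * ((p : ZMod (p ^ r)) ^ s *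
        (A * (y : ZMod (p ^ r)) - B * ((y⁻¹ : (ZMod (p ^ r))ˣ) : ZMod (p ^ r))))) :=
        Finset.sum_congr rfl fun z _ => h1 z
    _ = ∑ y : (ZMod (p ^ r))ˣ, (if (p : ZMod (p ^ r)) ^ s *
        (A * (y : ZMod (p ^ r)) - B * ((y⁻¹ : (ZMod (p ^ r))ˣ) : ZMod (p ^ r))) = 0 then
          ((p ^ r : ℕ) : ℂ) * (Ψ y * ZMod.stdAddChar (A * (y : ZMod (p ^ r)) +
        B * ((y⁻¹ : (ZMod (p ^ r))ˣ) : ZMod (p ^ r)))) else 0) := by
        rw [Finset.sum_comm]
        refine Finset.sum_congr rfl fun y _ => ?_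
        rw [← Finset.mul_sum, AddChar.sum_mulShift _ (ZMod.isPrimitive_stdAddChar _), ZMod.card]
        split_ifs
        · ring
        · simp
    _ = _ := by
        rw [← Finset.sum_filter, Finset.mul_sum]
        refine Finset.sum_congr ?_ fun _ _ => rfl
        ext y
        simp [mem_YY]

theorem YY_empty [NeZero (p ^ r)] (hp : p.Prime) {s : ℕ} (hs : s < r) {A B : ZMod (p ^ r)}
    (hA : IsUnit A) (hB : ∃ B', B = p * B') : YY s A B = ∅ := by
  obtain ⟨B', rfl⟩ := hB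
  rw [Finset.eq_empty_iff_forall_notMem]
  intro y hy
  rw [mem_YY] at hy
  have h1 := not_unit_ann hp hs hy
  have h2 : IsUnit (A * (y : ZMod (p ^ r))) := hA.mul y.isUnit
  have h3 : A * (y : ZMod (p ^ r)) =
      (A * (y : ZMod (p ^ r)) - p * B' * ((y⁻¹ : (ZMod (p ^ r))ˣ) : ZMod (p ^ r))) +
      p * (B' * ((y⁻¹ : (ZMod (p ^ r))ˣ) : ZMod (p ^ r))) := by ring
  rw [h3] at h2
  rcases unit_add hp (by omega) h2 with h | h
  · exact h1 h
  · exact not_unit_pi hp (by omega) _ h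

theorem YY_card [NeZero (p ^ r)] (hp : p.Prime) (hp2 : p ≠ 2) {s : ℕ} (hs : s < r)
    {A B : ZMod (p ^ r)} (hA : IsUnit A) : (YY s A B).card ≤ 2 * p ^ s := by
  classical
  rcases Finset.eq_empty_or_nonempty (YY s A B) with h | ⟨y0, hy0⟩
  · rw [h]; simp
  rw [mem_YY] at hy0
  have hsub : (YY s A B).map ⟨fun y : (ZMod (p ^ r))ˣ => (y : ZMod (p ^ r)), Units.val_injective⟩ ⊆
      (univ.filter fun x : ZMod (p ^ r) => (p : ZMod (p ^ r)) ^ s * (x - y0) = 0) ∪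
      (univ.filter fun x : ZMod (p ^ r) => (p : ZMod (p ^ r)) ^ s * (x - (-y0)) = 0) := by
    intro x hx
    rw [Finset.mem_map] at hx
    obtain ⟨y, hy, rfl⟩ := hx
    rw [mem_YY] at hy
    simp only [Function.Embedding.coeFn_mk, mem_union, mem_filter, mem_univ, true_and]
    have e0 : (y0 : ZMod (p ^ r)) * ((y0⁻¹ : (ZMod (p ^ r))ˣ) : ZMod (p ^ r)) = 1 :=
      Units.mul_inv y0
    have e1 : (y : ZMod (p ^ r)) * ((y⁻¹ : (ZMod (p ^ r))ˣ) : ZMod (p ^ r)) = 1 :=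
      Units.mul_inv y
    have h1 : (p : ZMod (p ^ r)) ^ s * (A * (y : ZMod (p ^ r)) ^ 2 - B) = 0 := by
      linear_combination (y : ZMod (p ^ r)) * hy + (p : ZMod (p ^ r)) ^ s * B * e1
    have h0 : (p : ZMod (p ^ r)) ^ s * (A * (y0 : ZMod (p ^ r)) ^ 2 - B) = 0 := by
      linear_combination (y0 : ZMod (p ^ r)) * hy0 + (p : ZMod (p ^ r)) ^ s * B * e0
    have h2 : A * ((p : ZMod (p ^ r)) ^ s * (((y : ZMod (p ^ r)) - y0) * (y - (-y0)))) = 0 := by
      linear_combination h1 - h0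
    have h3 := (hA.mul_right_eq_zero).1 h2
    have h4 : IsUnit (((y : ZMod (p ^ r)) - y0) + (y - (-y0))) := by
      have e : ((y : ZMod (p ^ r)) - y0) + (y - (-y0)) = 2 * y := by ring
      rw [e]
      exact (unit_two hp hp2).mul y.isUnit
    rcases unit_add hp (by omega) h4 with h | h
    · right
      have h5 : ((y : ZMod (p ^ r)) - y0) * ((p : ZMod (p ^ r)) ^ s * (y - (-y0))) = 0 := by
        linear_combination h3
      exact (h.mul_right_eq_zero).1 h5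
    · left
      have h5 : ((y : ZMod (p ^ r)) - (-y0)) * ((p : ZMod (p ^ r)) ^ s * (y - y0)) = 0 := by
        linear_combination h3
      exact (h.mul_right_eq_zero).1 h5
  calc (YY s A B).card = _ := (Finset.card_map _).symm
    _ ≤ _ := Finset.card_le_card hsub
    _ ≤ _ := Finset.card_union_le _ _
    _ ≤ p ^ s + p ^ s := add_le_add (card_ann hp hs.le _) (card_ann hp hs.le _)
    _ = 2 * p ^ s := by ring

end ring

/-- the truncated square root of `1 + 4x` -/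
noncomputable def P5 : ℝ[X] :=
  1 + C 2 * X - C 2 * X ^ 2 + C 4 * X ^ 3 - C 10 * X ^ 4 + C 28 * X ^ 5

/-- the phase -/
noncomputable def QQ (c d : ℝ) : ℝ[X] := C c * P5.comp (C d * X)

theorem QQ_eq (c d : ℝ) : QQ c d = C c + C (2 * c * d) * X - C (2 * c * d ^ 2) * X ^ 2 +
    C (4 * c * d ^ 3) * X ^ 3 - C (10 * c * d ^ 4) * X ^ 4 + C (28 * c * d ^ 5) * X ^ 5 := by
  simp only [QQ, P5, add_comp, sub_comp, mul_comp, pow_comp, C_comp, X_comp, one_comp, mul_pow,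
    C_mul, C_pow]
  ring

theorem QQ_deg (c d : ℝ) : (QQ c d).natDegree ≤ 5 := by
  rw [QQ_eq]
  compute_degree

theorem QQ_coeff (c d : ℝ) : (QQ c d).coeff 5 = 28 * c * d ^ 5 := by
  rw [QQ_eq]
  simp only [coeff_add, coeff_sub, coeff_C_mul, coeff_X_pow, coeff_X, coeff_C]
  norm_num

theorem QQ_eval (c d x : ℝ) : (QQ c d).eval x = c * (1 + 2 * (d * x) - 2 * (d * x) ^ 2 +
    4 * (d * x) ^ 3 - 10 * (d * x) ^ 4 + 28 * (d * x) ^ 5) := by
  rw [QQ_eq]
  simp only [eval_add, eval_sub, eval_mul, eval_pow, eval_C, eval_X]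
  ring

theorem klo : S_KLO := by
  intro p r u _ hp hp2 hr hu Ψ hΨ1 hΨ2 A L hA hL
  have hs : r ≤ 2 * ((r + 1) / 2) := by omega
  have hus : u ≤ (r + 1) / 2 := by omega
  have hsr : (r + 1) / 2 < r := by omega
  refine ⟨?_, ?_, ?_⟩
  · intro h
    rw [loc hs hus Ψ hΨ2]
    refine (norm_sum_le _ _).trans ?_
    have h1 : ∀ y ∈ YY ((r + 1) / 2) A (L * (h : ZMod (p ^ r))),
        ‖Ψ y * ZMod.stdAddChar (A * (y : ZMod (p ^ r)) +
        L * (h : ZMod (p ^ r)) * ((y⁻¹ : (ZMod (p ^ r))ˣ) : ZMod (p ^ r)))‖ = 1 := by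
      intro y _
      rw [norm_mul, hΨ1, AddChar.norm_apply, one_mul]
    rw [Finset.sum_congr rfl h1, Finset.sum_const, nsmul_eq_mul, mul_one]
    exact_mod_cast YY_card hp hp2 hsr hA
  · intro h hh
    rw [loc hs hus Ψ hΨ2, YY_empty hp hsr hA, Finset.sum_empty]
    obtain ⟨h', rfl⟩ := hh
    exact ⟨L * h', by push_cast; ring⟩
  · intro E h₀ hE huE hrE hh₀
    obtain ⟨g, hg⟩ : ∃ g : ℤ, ((4 * h₀ * g : ℤ) : ZMod (p ^ r)) = 1 := by
      have h4 : ¬ (p : ℤ) ∣ 4 := by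
        intro h
        have h' : p ∣ 2 ^ 2 := by exact_mod_cast h
        exact hp2 ((Nat.prime_dvd_prime_iff_eq hp Nat.prime_two).1 (hp.dvd_of_dvd_pow h'))
      have h5 : IsUnit ((4 * h₀ : ℤ) : ZMod (p ^ r)) := by
        rw [Int.cast_mul]
        exact (unit_int hp h4).mul (unit_int hp hh₀)
      obtain ⟨w, hw⟩ := h5
      refine ⟨(((w⁻¹ : (ZMod (p ^ r))ˣ) : ZMod (p ^ r)).val : ℤ), ?_⟩
      rw [Int.cast_mul, ← hw, Int.cast_natCast, ZMod.natCast_zmod_val, Units.mul_inv]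
    have hgp : ¬ (p : ℤ) ∣ g := by
      rintro ⟨g', rfl⟩
      have : ((p : ZMod (p ^ r)) * ((4 * h₀ * g' : ℤ) : ZMod (p ^ r))) = 1 := by
        rw [← hg]; push_cast; ring
      exact not_unit_pi hp (by omega) _ (this ▸ isUnit_one)
    set s := (r + 1) / 2 with hsdef
    set Y := YY s A (L * (h₀ : ZMod (p ^ r))) with hY
    let e := Y.equivFin
    have hcu : ∀ y ∈ Y, IsUnit (A * (y : ZMod (p ^ r)) +
        L * (h₀ : ZMod (p ^ r)) * ((y⁻¹ : (ZMod (p ^ r))ˣ) : ZMod (p ^ r))) := by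
      intro y hy
      rw [hY, mem_YY] at hy
      have h1 := not_unit_ann hp hsr hy
      have h2 : IsUnit ((A * (y : ZMod (p ^ r)) +
          L * (h₀ : ZMod (p ^ r)) * ((y⁻¹ : (ZMod (p ^ r))ˣ) : ZMod (p ^ r))) +
          (A * (y : ZMod (p ^ r)) -
          L * (h₀ : ZMod (p ^ r)) * ((y⁻¹ : (ZMod (p ^ r))ˣ) : ZMod (p ^ r)))) := by
        have : (A * (y : ZMod (p ^ r)) +
          L * (h₀ : ZMod (p ^ r)) * ((y⁻¹ : (ZMod (p ^ r))ˣ) : ZMod (p ^ r))) +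
          (A * (y : ZMod (p ^ r)) -
          L * (h₀ : ZMod (p ^ r)) * ((y⁻¹ : (ZMod (p ^ r))ˣ) : ZMod (p ^ r))) =
          2 * (A * y) := by ring
        rw [this]
        exact (unit_two hp hp2).mul (hA.mul y.isUnit)
      rcases unit_add hp (by omega) h2 with h | h
      · exact h
      · exact absurd h h1
    let cc : Fin Y.card → ℕ := fun i => (A * (((e.symm i : (ZMod (p ^ r))ˣ)) : ZMod (p ^ r)) +
        L * (h₀ : ZMod (p ^ r)) *
        ((((e.symm i : (ZMod (p ^ r))ˣ))⁻¹ : (ZMod (p ^ r))ˣ) : ZMod (p ^ r))).val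
    refine ⟨Y.card, fun i => Ψ ((e.symm i : (ZMod (p ^ r))ˣ) : ZMod (p ^ r)),
      fun i => (cc i : ℤ) * g ^ 5,
      fun i => QQ ((cc i : ℝ) / (p : ℝ) ^ r) ((p : ℝ) ^ E * g), YY_card hp hp2 hsr hA, ?_, ?_⟩
    · intro i
      refine ⟨hΨ1 _, ?_, QQ_deg _ _, ?_⟩
      · intro h
        have hpp := Nat.prime_iff_prime_int.1 hp
        rcases hpp.dvd_or_dvd h with h | h
        · have h' : p ∣ cc i := by exact_mod_cast h
          obtain ⟨m, hm⟩ := h'
          have h1 := hcu _ (e.symm i).2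
          rw [← ZMod.natCast_zmod_val (A * (((e.symm i : (ZMod (p ^ r))ˣ)) : ZMod (p ^ r)) +
            L * (h₀ : ZMod (p ^ r)) *
            ((((e.symm i : (ZMod (p ^ r))ˣ))⁻¹ : (ZMod (p ^ r))ˣ) : ZMod (p ^ r)))] at h1
          change IsUnit ((cc i : ℕ) : ZMod (p ^ r)) at h1
          rw [hm, Nat.cast_mul] at h1
          exact not_unit_pi hp (by omega) _ h1
        · exact hgp (hpp.dvd_of_dvd_pow h)
      · rw [QQ_coeff]
        push_cast
        rw [mul_pow, ← pow_mul, mul_comm E 5]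
        ring
    · intro k
      set x : ℤ := (p : ℤ) ^ E * g * k with hx
      have hx6 : (x : ZMod (p ^ r)) ^ 6 = 0 := by
        rw [hx]
        push_cast
        rw [mul_pow, mul_pow, ← pow_mul, mul_comm E 6, pi_zero hrE, zero_mul, zero_mul]
      set W : ℤ := 1 + 2 * x - 2 * x ^ 2 + 4 * x ^ 3 - 10 * x ^ 4 + 28 * x ^ 5 with hW
      have hWp : (W : ZMod (p ^ r)) = 1 + (p : ZMod (p ^ r)) ^ E *
          (((g * k) * (2 - 2 * x + 4 * x ^ 2 - 10 * x ^ 3 + 28 * x ^ 4) : ℤ) :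
            ZMod (p ^ r)) := by
        rw [hW]
        have : (1 + 2 * x - 2 * x ^ 2 + 4 * x ^ 3 - 10 * x ^ 4 + 28 * x ^ 5 : ℤ) =
          1 + (p : ℤ) ^ E * ((g * k) * (2 - 2 * x + 4 * x ^ 2 - 10 * x ^ 3 + 28 * x ^ 4)) := by
          have : x = (p : ℤ) ^ E * (g * k) := by rw [hx]; ring
          linear_combination (2 - 2 * x + 4 * x ^ 2 - 10 * x ^ 3 + 28 * x ^ 4) * this
        rw [this]
        push_cast
        ring
      have hWu : IsUnit (W : ZMod (p ^ r)) := by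
        rw [hWp]
        exact unit_one_add hE _
      obtain ⟨w, hw⟩ := hWu
      have hW2 : ((h₀ + (p : ℤ) ^ E * k : ℤ) : ZMod (p ^ r)) = h₀ * (W : ZMod (p ^ r)) ^ 2 := by
        have e1 : ((h₀ + (p : ℤ) ^ E * k : ℤ) : ZMod (p ^ r)) = h₀ * (1 + 4 * x) := by
          have : ((p : ZMod (p ^ r)) ^ E * k) = ((4 * h₀ * g : ℤ) : ZMod (p ^ r)) *
              ((p : ZMod (p ^ r)) ^ E * k) := by rw [hg, one_mul]
          rw [hx]
          push_cast at this ⊢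
          linear_combination this
        rw [e1, hW]
        push_cast
        linear_combination (h₀ : ZMod (p ^ r)) * (-168 + 192 * (x : ZMod (p ^ r)) -
          324 * (x : ZMod (p ^ r)) ^ 2 + 560 * (x : ZMod (p ^ r)) ^ 3 -
          784 * (x : ZMod (p ^ r)) ^ 4) * hx6
      have e2 : KL Ψ A (L * ((h₀ + (p : ℤ) ^ E * k : ℤ) : ZMod (p ^ r))) =
          KL Ψ (A * W) (L * (h₀ : ZMod (p ^ r)) * W) := by
        rw [hW2]
        unfold KL
        rw [← Equiv.sum_comp (Equiv.mulRight w)]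
        refine Finset.sum_congr rfl fun y _ => ?_
        rw [Equiv.coe_mulRight, mul_inv_rev, Units.val_mul, Units.val_mul, hw]
        have e3 : Ψ ((y : ZMod (p ^ r)) * (W : ZMod (p ^ r))) = Ψ y := by
          rw [hWp]
          exact psi_mul huE hΨ2 _ _
        rw [e3]
        congr 2
        have e4 : (W : ZMod (p ^ r)) * ((w⁻¹ : (ZMod (p ^ r))ˣ) : ZMod (p ^ r)) = 1 := by
          rw [← hw, Units.mul_inv]
        linear_combination (L * (h₀ : ZMod (p ^ r)) * W *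
          ((y⁻¹ : (ZMod (p ^ r))ˣ) : ZMod (p ^ r))) * e4
      have e5 : YY s (A * (W : ZMod (p ^ r))) (L * (h₀ : ZMod (p ^ r)) * (W : ZMod (p ^ r))) =
          Y := by
        ext y
        rw [hY, mem_YY, mem_YY]
        have e6 : (p : ZMod (p ^ r)) ^ s * (A * (W : ZMod (p ^ r)) * (y : ZMod (p ^ r)) -
            L * (h₀ : ZMod (p ^ r)) * W * ((y⁻¹ : (ZMod (p ^ r))ˣ) : ZMod (p ^ r))) =
            W * ((p : ZMod (p ^ r)) ^ s * (A * (y : ZMod (p ^ r)) -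
            L * (h₀ : ZMod (p ^ r)) * ((y⁻¹ : (ZMod (p ^ r))ˣ) : ZMod (p ^ r)))) := by ring
        rw [e6]
        constructor
        · intro h
          rw [← hw] at h
          exact (w.isUnit.mul_right_eq_zero).1 h
        · intro h
          rw [h, mul_zero]
      rw [e2, loc hs hus Ψ hΨ2, e5, ← Finset.sum_coe_sort Y, ← Equiv.sum_comp e.symm]
      refine Finset.sum_congr rfl fun i _ => ?_
      congr 1
      have e7 : A * (W : ZMod (p ^ r)) * (((e.symm i : (ZMod (p ^ r))ˣ)) : ZMod (p ^ r)) +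
          L * (h₀ : ZMod (p ^ r)) * W *
          ((((e.symm i : (ZMod (p ^ r))ˣ))⁻¹ : (ZMod (p ^ r))ˣ) : ZMod (p ^ r)) =
          (((cc i : ℤ) * W : ℤ) : ZMod (p ^ r)) := by
        rw [Int.cast_mul, Int.cast_natCast, ZMod.natCast_zmod_val]
        ring
      rw [e7, ZMod.stdAddChar_coe, QQ_eval, eu]
      congr 1
      rw [hW, hx]
      push_cast
      ring

end Pool.Agent.Y779.R3
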